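import Mathlib
import Pool.Agent.L7h50.AG.Dir

set_option autoImplicit false

open MeasureTheory Set

namespace Pool.Agent.L7h30.AG
open Pool.Agent.L7h50.AG

theorem int2 (π : Measure ℝ) [IsProbabilityMeasure π] (a : ℝ) (h : ∀ᵐ u ∂π, u = 0 ∨ u = a)
    (g : ℝ → ℝ) : ∫ u, g u ∂π = g 0 + (g a - g 0) * π.real {a} := by
  have e : g =ᵐ[π] fun u => g 0 + (g a - g 0) * ({a} : Set ℝ).indicator (fun _ => (1 : ℝ)) u := by
    filter_upwards [h] with u hu
    by_cases hua : u = a
    · rw [hua]; simp
    · rcases hu with hu | hu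
      · rw [indicator_of_notMem (by simpa using hua), hu]; ring
      · exact absurd hu hua
  rw [integral_congr_ae e, integral_add (integrable_const _)
    (((integrable_const (1 : ℝ)).indicator (measurableSet_singleton a)).const_mul _),
    integral_const_mul, integral_indicator_const _ (measurableSet_singleton a)]
  simp

section
variable (π : Measure ℝ) [IsProbabilityMeasure π] (a : ℝ) (ha : 0 ≤ a)
  (h : ∀ᵐ u ∂π, u = 0 ∨ u = a)
include ha h

theorem total0 : total π 0 = 0 := by
  unfold total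
  rw [int2 π a h, min_self, min_eq_left ha]
  ring

theorem totala : total π a = a * π.real {a} := by
  unfold total
  rw [int2 π a h, min_self, min_eq_right ha]
  ring

theorem K0 : ∫ u, min 0 u * P1 π u ∂π = 0 := by
  rw [int2 π a h, min_self, min_eq_left ha]
  ring

theorem Ka : ∫ u, min a u * P1 π u ∂π = a * π.real {a} * Real.exp (-(a * π.real {a})) := by
  rw [int2 π a h, min_self, min_eq_right ha]
  unfold P1
  rw [totala π a ha h]
  ring

theorem v1 : ∫ u, P1 π u ∂π = 1 - π.real {a} + π.real {a} * Real.exp (-(a * π.real {a})) := by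
  rw [int2 π a h]
  unfold P1
  rw [totala π a ha h, total0 π a ha h, neg_zero, Real.exp_zero]
  ring

theorem P20 : P2 π 0 = 0 := by
  unfold P2
  rw [K0 π a ha h, mul_zero]

theorem P2a : P2 π a = a * π.real {a} * Real.exp (-(a * π.real {a})) ^ 2 := by
  unfold P2
  rw [Ka π a ha h, totala π a ha h]
  ring

theorem v2 : ∫ u, P2 π u ∂π = a * (π.real {a} * Real.exp (-(a * π.real {a}))) ^ 2 := by
  rw [int2 π a h, P20 π a ha h, P2a π a ha h]
  ring

theorem v3 : ∫ u, P3 π u ∂π = 3 / 2 * a ^ 2 * (π.real {a} * Real.exp (-(a * π.real {a}))) ^ 3 := by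
  have e0 : P3 π 0 = 0 := by
    unfold P3
    rw [K0 π a ha h, int2 π a h, min_self, min_eq_left ha]
    ring
  have ea : P3 π a = 3 / 2 * a ^ 2 * (π.real {a}) ^ 2 * Real.exp (-(a * π.real {a})) ^ 3 := by
    unfold P3
    rw [Ka π a ha h, int2 π a h, min_self, min_eq_right ha, P2a π a ha h, totala π a ha h]
    ring
  rw [int2 π a h, e0, ea]
  ring

end

theorem eq_of_int (π π' : Measure ℝ) [IsProbabilityMeasure π] [IsProbabilityMeasure π']
    (H : ∀ g : ℝ → ℝ, ∫ u, g u ∂π = ∫ u, g u ∂π') : π = π' := by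
  ext s hs
  have h1 := H (s.indicator 1)
  rw [integral_indicator_one hs, integral_indicator_one hs] at h1
  exact (ENNReal.toReal_eq_toReal_iff' (measure_ne_top _ _) (measure_ne_top _ _)).mp h1

theorem det (π π' : Measure ℝ) [IsProbabilityMeasure π] [IsProbabilityMeasure π'] (a a' : ℝ)
    (ha : 0 ≤ a) (ha' : 0 ≤ a') (hpi : ∀ᵐ u ∂π, u = 0 ∨ u = a) (hpi' : ∀ᵐ u ∂π', u = 0 ∨ u = a')
    (h1 : ∫ s, P1 π s ∂π = ∫ s, P1 π' s ∂π') (h2 : ∫ s, P2 π s ∂π = ∫ s, P2 π' s ∂π')
    (h3 : ∫ s, P3 π s ∂π = ∫ s, P3 π' s ∂π') : π = π' := by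
  apply eq_of_int
  intro g
  rw [int2 π a hpi, int2 π' a' hpi']
  rw [v1 π a ha hpi, v1 π' a' ha' hpi'] at h1
  rw [v2 π a ha hpi, v2 π' a' ha' hpi'] at h2
  rw [v3 π a ha hpi, v3 π' a' ha' hpi'] at h3
  have hm : 0 ≤ π.real {a} := measureReal_nonneg
  have hm' : 0 ≤ π'.real {a'} := measureReal_nonneg
  set m := π.real {a} with hmd
  set m' := π'.real {a'} with hmd'
  set E := Real.exp (-(a * m)) with hE
  set E' := Real.exp (-(a' * m')) with hE'
  have hEp : 0 < E := Real.exp_pos _
  have hEp' : 0 < E' := Real.exp_pos _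
  set y := m * E with hy
  set y' := m' * E' with hy'
  have key0 : ∀ (a m E : ℝ), 0 < E → a * (m * E) ^ 2 = 0 → a = 0 ∨ m = 0 := by
    intro a m E hE h
    rcases mul_eq_zero.mp h with h | h
    · exact Or.inl h
    · right
      have := pow_eq_zero_iff (two_ne_zero) |>.mp h
      rcases mul_eq_zero.mp this with h | h
      · exact h
      · exact absurd h hE.ne'
  by_cases hv : a * y ^ 2 = 0
  · have e1 : (g a - g 0) * m = 0 := by
      rcases key0 a m E hEp hv with h | h
      · rw [h]; ring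
      · rw [h]; ring
    have e2 : (g a' - g 0) * m' = 0 := by
      rcases key0 a' m' E' hEp' (by rw [← hy', ← h2]; exact hv) with h | h
      · rw [h]; ring
      · rw [h]; ring
    rw [e1, e2]
  · have hay : a * y ≠ 0 := by
      intro h
      apply hv
      have : a * y ^ 2 = a * y * y := by ring
      rw [this, h, zero_mul]
    have hy0 : y ≠ 0 := fun h => hay (by rw [h, mul_zero])
    have hv' : a' * y' ^ 2 ≠ 0 := by rw [← h2]; exact hv
    have q : a * y = a' * y' := by
      have e : (a * y) * (a * y ^ 2) = (a' * y') * (a * y ^ 2) := by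
        have e1 : (a * y) * (a * y ^ 2) = a ^ 2 * y ^ 3 := by ring
        have e2 : (a' * y') * (a * y ^ 2) = a' ^ 2 * y' ^ 3 := by rw [h2]; ring
        rw [e1, e2]; linarith
      exact mul_right_cancel₀ hv e
    have yy : y = y' := by
      have e : (a * y) * y = (a * y) * y' := by
        have e1 : (a * y) * y = a * y ^ 2 := by ring
        have e2 : (a * y) * y' = a' * y' ^ 2 := by rw [q]; ring
        rw [e1, e2]; exact h2
      exact mul_left_cancel₀ hay e
    have aa : a = a' := by
      rw [← yy] at q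
      exact mul_right_cancel₀ hy0 q
    have mm : m = m' := by linarith
    rw [← aa, ← mm]

end Pool.Agent.L7h30.AG
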